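import Mathlib

set_option autoImplicit false

namespace Pool.Agent.Results.MP_349919_co.Full

open Complex Finset

/-- Sorting unit vectors with sum zero by their angle gives a strictly convex polygon. -/
lemma sort_poly (S : Finset ℂ) (n : ℕ) (hn : 0 < n) (hc : S.card = n)
    (h1 : ∀ u ∈ S, ‖u‖ = 1) (h0 : ∑ u ∈ S, u = 0) :
    ∃ e : ℕ → ℂ, (∀ k, e k ∈ S) ∧ (∀ i, ∑ t ∈ range (i + n), e t = ∑ t ∈ range i, e t) ∧
      ∀ i j, 2 ≤ j → j < n → 0 < (((starRingEnd ℂ) (e i)) * ∑ t ∈ range j, e (i + t)).im := by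
  classical
  have hex : ∀ u ∈ S, exp ((arg u : ℝ) * I) = u := by
    intro u hu
    have := norm_mul_exp_arg_mul_I u
    rw [h1 u hu] at this
    simpa using this
  have hinj : Set.InjOn arg (S : Set ℂ) := by
    intro u hu v hv h
    rw [← hex u hu, ← hex v hv, h]
  have hA : (S.image arg).card = n := by rw [card_image_of_injOn hinj, hc]
  set th := (S.image arg).orderEmbOfFin hA with hth
  have hmem : ∀ k, th k ∈ S.image arg := fun k => orderEmbOfFin_mem _ hA k
  have hlo : ∀ k, -Real.pi < th k := by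
    intro k
    obtain ⟨u, -, hu⟩ := mem_image.mp (hmem k)
    rw [← hu]; exact neg_pi_lt_arg u
  have hhi : ∀ k, th k ≤ Real.pi := by
    intro k
    obtain ⟨u, -, hu⟩ := mem_image.mp (hmem k)
    rw [← hu]; exact arg_le_pi u
  have hS : ∀ k, exp ((th k : ℝ) * I) ∈ S := by
    intro k
    obtain ⟨u, hu', hu⟩ := mem_image.mp (hmem k)
    rw [← hu, hex u hu']; exact hu'
  let T : ℕ → ℝ := fun k => th ⟨k % n, Nat.mod_lt k hn⟩ + 2 * Real.pi * ((k / n : ℕ) : ℝ)
  have hT : StrictMono T := by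
    apply strictMono_nat_of_lt_succ
    intro k
    by_cases hk : k % n + 1 < n
    · have e1 : (k + 1) % n = k % n + 1 := by
        rw [Nat.add_mod, Nat.mod_eq_of_lt (show 1 < n by omega), Nat.mod_eq_of_lt hk]
      have e2 : (k + 1) / n = k / n := by
        have a1 := Nat.div_add_mod (k + 1) n
        have a2 := Nat.div_add_mod k n
        have : n * ((k + 1) / n) = n * (k / n) := by omega
        exact Nat.eq_of_mul_eq_mul_left hn this
      have : th ⟨k % n, Nat.mod_lt k hn⟩ < th ⟨(k + 1) % n, Nat.mod_lt _ hn⟩ := by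
        apply th.strictMono
        rw [Fin.mk_lt_mk]; omega
      simp only [T, e2]; linarith
    · have a2 := Nat.div_add_mod k n
      have a3 := Nat.mod_lt k hn
      have e2 : (k + 1) / n = k / n + 1 := by
        have : k + 1 = n * (k / n + 1) := by rw [mul_add]; omega
        rw [this, Nat.mul_div_cancel_left _ hn]
      have b1 := hhi ⟨k % n, Nat.mod_lt k hn⟩
      have b2 := hlo ⟨(k + 1) % n, Nat.mod_lt _ hn⟩
      simp only [T, e2]; push_cast; linarith
  have hTn : ∀ k, T (k + n) = T k + 2 * Real.pi := by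
    intro k
    simp only [T, Nat.add_mod_right, Nat.add_div_right k hn]; push_cast; ring
  let e : ℕ → ℂ := fun k => exp ((T k : ℝ) * I)
  have he : ∀ k, e k = exp ((th ⟨k % n, Nat.mod_lt k hn⟩ : ℝ) * I) := by
    intro k
    simp only [e, T]
    push_cast
    rw [add_mul, Complex.exp_add]
    have : (2 * (Real.pi : ℂ) * ((k / n : ℕ) : ℂ) * I) = ((k / n : ℕ) : ℂ) * (2 * Real.pi * I) := by
      ring
    rw [this, exp_nat_mul_two_pi_mul_I, mul_one]
  have hper : ∀ k, e (k + n) = e k := by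
    intro k; rw [he, he]; simp only [Nat.add_mod_right]
  have hsum0 : ∑ t ∈ range n, e t = 0 := by
    rw [← h0, ← Fin.sum_univ_eq_sum_range e n]
    have h2 : ∑ u ∈ S, u = ∑ a ∈ S.image arg, exp ((a : ℝ) * I) := by
      rw [sum_image hinj]
      exact sum_congr rfl (fun u hu => (hex u hu).symm)
    rw [h2]
    have h3 : S.image arg = univ.image th := by
      ext a
      constructor
      · intro ha
        have : a ∈ Set.range th := by rw [hth, range_orderEmbOfFin]; exact ha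
        obtain ⟨k, hk⟩ := this
        exact mem_image.mpr ⟨k, mem_univ _, hk⟩
      · intro ha
        obtain ⟨k, -, hk⟩ := mem_image.mp ha
        rw [← hk]; exact hmem k
    rw [h3, sum_image (fun a _ b _ h => th.injective h)]
    apply sum_congr rfl
    intro k _
    rw [he]
    congr 4
    exact Fin.ext (Nat.mod_eq_of_lt k.2)
  have hP : ∀ i, ∑ t ∈ range (i + n), e t = ∑ t ∈ range i, e t := by
    intro i
    induction i with
    | zero => simpa using hsum0
    | succ i ih =>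
      rw [show i + 1 + n = (i + n) + 1 by ring, sum_range_succ, sum_range_succ, ih, hper]
  refine ⟨e, fun k => by rw [he]; exact hS _, hP, ?_⟩
  intro i j hj2 hjn
  have hterm : ∀ t, ((starRingEnd ℂ) (e i) * e (i + t)).im = Real.sin (T (i + t) - T i) := by
    intro t
    simp only [e]
    rw [← Complex.exp_conj, ← Complex.exp_add]
    have : (starRingEnd ℂ) ((T i : ℝ) * I) + (T (i + t) : ℝ) * I
        = ((T (i + t) - T i : ℝ) : ℂ) * I := by
      simp only [map_mul, conj_ofReal, conj_I]; push_cast; ring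
    rw [this, exp_ofReal_mul_I_im]
  have hgen : ∀ j, (((starRingEnd ℂ) (e i)) * ∑ t ∈ range j, e (i + t)).im
      = ∑ t ∈ range j, Real.sin (T (i + t) - T i) := by
    intro j
    rw [mul_sum, im_sum]
    exact sum_congr rfl (fun t _ => hterm t)
  have hz : ∑ t ∈ range n, Real.sin (T (i + t) - T i) = 0 := by
    rw [← hgen]
    have : ∑ t ∈ range n, e (i + t) = 0 := by
      have := hP i
      rw [sum_range_add] at this
      simpa using this
    rw [this]; simp
  rw [hgen]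
  by_cases hcase : T (i + (j - 1)) - T i < Real.pi
  · apply sum_pos'
    · intro t ht
      have a1 : T i ≤ T (i + t) := hT.monotone (by omega)
      have a2 : T (i + t) ≤ T (i + (j - 1)) := hT.monotone (by have := mem_range.mp ht; omega)
      apply Real.sin_nonneg_of_nonneg_of_le_pi <;> linarith
    · refine ⟨1, mem_range.mpr (by omega), ?_⟩
      have a1 : T i < T (i + 1) := hT (by omega)
      have a2 : T (i + 1) ≤ T (i + (j - 1)) := hT.monotone (by omega)
      apply Real.sin_pos_of_pos_of_lt_pi <;> linarith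
  · have hsplit := sum_range_add_sum_Ico (fun t => Real.sin (T (i + t) - T i)) hjn.le
    have hneg : ∑ t ∈ Ico j n, Real.sin (T (i + t) - T i) < 0 := by
      apply sum_neg
      · intro t ht
        obtain ⟨t1, t2⟩ := mem_Ico.mp ht
        have a1 : T (i + (j - 1)) < T (i + t) := hT (by omega)
        have a2 : T (i + t) < T (i + n) := hT (by omega)
        rw [hTn] at a2
        have : Real.sin (T (i + t) - T i) = -Real.sin (T (i + t) - T i - Real.pi) := by
          rw [Real.sin_sub_pi]; ring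
        rw [this, neg_lt_zero]
        apply Real.sin_pos_of_pos_of_lt_pi <;> linarith
      · exact ⟨j, mem_Ico.mpr ⟨le_rfl, hjn⟩⟩
    linarith

noncomputable def sq (m : ℕ) : ℂ := (Real.sqrt m : ℝ) * I

lemma sq_sq (m : ℕ) : sq m * sq m = ((-(m : ℤ) : ℤ) : ℂ) := by
  have h : ((Real.sqrt m : ℝ) : ℂ) * (Real.sqrt m : ℝ) = (m : ℂ) := by
    rw [← ofReal_mul, Real.mul_self_sqrt (Nat.cast_nonneg m)]; simp
  unfold sq
  push_cast
  linear_combination (I * I) * h + (m : ℂ) * I_mul_I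

noncomputable def io (m : ℕ) : ℤ√(-(m : ℤ)) →+* ℂ := Zsqrtd.lift ⟨sq m, sq_sq m⟩

lemma io_apply (m : ℕ) (a : ℤ√(-(m : ℤ))) : io m a = a.re + a.im * sq m := rfl

lemma io_inj (m : ℕ) (hm : 0 < m) : Function.Injective (io m) :=
  Zsqrtd.lift_injective _ (fun n h => by nlinarith [mul_self_nonneg n])

lemma io_star (m : ℕ) (a : ℤ√(-(m : ℤ))) : io m (star a) = (starRingEnd ℂ) (io m a) := by
  simp [io_apply, sq]

/-- unit vectors that are rational multiples of lattice vectors -/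
def G (m : ℕ) (u : ℂ) : Prop :=
  ‖u‖ = 1 ∧ ∃ D : ℕ, 0 < D ∧ ∃ a : ℤ√(-(m : ℤ)), (D : ℂ) * u = io m a

lemma G_one (m : ℕ) : G m 1 := ⟨by simp, 1, one_pos, 1, by simp⟩

lemma G_mul {m : ℕ} {u v : ℂ} (hu : G m u) (hv : G m v) : G m (u * v) := by
  obtain ⟨h1, D, hD, a, ha⟩ := hu
  obtain ⟨h2, E, hE, b, hb⟩ := hv
  refine ⟨by rw [norm_mul, h1, h2, one_mul], D * E, Nat.mul_pos hD hE, a * b, ?_⟩
  rw [map_mul, ← ha, ← hb]; push_cast; ring

lemma G_neg {m : ℕ} {u : ℂ} (hu : G m u) : G m (-u) := by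
  obtain ⟨h1, D, hD, a, ha⟩ := hu
  refine ⟨by rw [norm_neg, h1], D, hD, -a, ?_⟩
  rw [map_neg, ← ha]; ring

lemma G_ne {m : ℕ} {u : ℂ} (hu : G m u) : u ≠ 0 := by
  intro h; have := hu.1; rw [h] at this; simp at this

lemma G_inv {m : ℕ} {u : ℂ} (hu : G m u) : G m u⁻¹ := by
  obtain ⟨h1, D, hD, a, ha⟩ := hu
  refine ⟨by rw [norm_inv, h1, inv_one], D, hD, star a, ?_⟩
  rw [io_star, ← ha, Complex.inv_eq_conj h1]; simp

lemma G_pow {m : ℕ} {u : ℂ} (hu : G m u) (k : ℕ) : G m (u ^ k) := by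
  induction k with
  | zero => simpa using G_one m
  | succ k ih => rw [pow_succ]; exact G_mul ih hu

lemma G_zpow {m : ℕ} {u : ℂ} (hu : G m u) (k : ℤ) : G m (u ^ k) := by
  obtain ⟨a, rfl | rfl⟩ := Int.eq_nat_or_neg k
  · rw [zpow_natCast]; exact G_pow hu a
  · rw [zpow_neg, zpow_natCast]; exact G_inv (G_pow hu a)

lemma io_ne {m : ℕ} (hm : 0 < m) {a : ℤ√(-(m : ℤ))} (ha : a ≠ 0) : io m a ≠ 0 := by
  intro h; exact ha (io_inj m hm (by rw [h, map_zero]))

lemma G_quot {m : ℕ} (hm : 0 < m) {a : ℤ√(-(m : ℤ))} (ha : a ≠ 0) :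
    G m (io m a / io m (star a)) := by
  have h1 := io_ne hm ha
  have h2 : io m (star a) ≠ 0 := io_ne hm (by simpa using ha)
  refine ⟨?_, a.norm.natAbs, ?_, a * a, ?_⟩
  · rw [norm_div, io_star, Complex.norm_conj, div_self (by simpa using h1)]
  · rw [Int.natAbs_pos]
    intro h
    have := Zsqrtd.norm_eq_mul_conj a
    rw [h] at this
    have h3 : io m a * io m (star a) = 0 := by rw [← map_mul, ← this]; simp
    exact (mul_ne_zero h1 h2) h3
  · have h0 : 0 ≤ a.norm := Zsqrtd.norm_nonneg (by omega) a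
    have h3 : ((a.norm.natAbs : ℕ) : ℂ) = io m a * io m (star a) := by
      rw [← map_mul, ← Zsqrtd.norm_eq_mul_conj a, map_intCast, ← Int.cast_natCast,
        Int.natAbs_of_nonneg h0]
    rw [h3, map_mul]; field_simp

def z1 (m : ℕ) : ℤ√(-(m : ℤ)) := ⟨2, 1⟩
def z2 (m : ℕ) : ℤ√(-(m : ℤ)) := ⟨2 * (m + 4), 1⟩

lemma z1_ne (m : ℕ) : z1 m ≠ 0 := by
  intro h; have := congrArg Zsqrtd.im h; simp [z1] at this
lemma z2_ne (m : ℕ) : z2 m ≠ 0 := by
  intro h; have := congrArg Zsqrtd.im h; simp [z2] at this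

lemma ind_nat (m : ℕ) (h3 : m % 4 = 3) (a b c : ℕ)
    (h : z1 m ^ a * z2 m ^ b * star (z2 m) ^ c = star (z1 m) ^ a * star (z2 m) ^ b * z2 m ^ c) :
    a = 0 := by
  by_contra ha
  have : Fact (1 < m + 4) := ⟨by omega⟩
  have hm4 : ((m : ℕ) : ZMod (m + 4)) + 4 = 0 := by
    have := ZMod.natCast_self (m + 4)
    push_cast at this; exact this
  have hr : (-2 : ZMod (m + 4)) * (-2) = ((-(m : ℤ) : ℤ) : ZMod (m + 4)) := by
    push_cast; linear_combination hm4
  let f : ℤ√(-(m : ℤ)) →+* ZMod (m + 4) := Zsqrtd.lift ⟨-2, hr⟩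
  have hf : ∀ x : ℤ√(-(m : ℤ)), f x = x.re + x.im * (-2) := fun x => rfl
  have hu : IsUnit (2 : ZMod (m + 4)) := by
    have : Nat.Coprime 2 (m + 4) := (Nat.coprime_two_left).mpr (by
      rw [Nat.odd_iff]; omega)
    have := (ZMod.isUnit_iff_coprime 2 (m + 4)).mpr this
    simpa using this
  have e1 : f (z1 m) = 0 := by rw [hf]; simp [z1]
  have e2 : f (star (z1 m)) = 2 * 2 := by rw [hf]; simp [z1]; norm_num
  have e3 : f (z2 m) = -2 := by rw [hf]; simp [z2, hm4]
  have e4 : f (star (z2 m)) = 2 := by rw [hf]; simp [z2, hm4]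
  have := congrArg f h
  simp only [map_mul, map_pow, e1, e2, e3, e4, zero_pow ha, zero_mul] at this
  have hU : IsUnit (((2 : ZMod (m + 4)) * 2) ^ a * 2 ^ b * (-2) ^ c) :=
    (((hu.mul hu).pow a).mul (hu.pow b)).mul (hu.neg.pow c)
  rw [← this] at hU
  exact not_isUnit_zero hU

lemma ind_nat2 (m : ℕ) (h3 : m % 4 = 3) (b : ℕ)
    (h : z2 m ^ b = star (z2 m) ^ b) : b = 0 := by
  by_contra hb
  set N := 4 * (m + 4) * (m + 4) + m with hN
  have : Fact (1 < N) := ⟨by nlinarith⟩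
  have hm4 : (4 : ZMod N) * (m + 4) * (m + 4) + m = 0 := by
    have := ZMod.natCast_self N
    rw [hN] at this
    push_cast at this; exact this
  have hr : (-2 * (m + 4) : ZMod N) * (-2 * (m + 4)) = ((-(m : ℤ) : ℤ) : ZMod N) := by
    push_cast; linear_combination hm4
  let f : ℤ√(-(m : ℤ)) →+* ZMod N := Zsqrtd.lift ⟨-2 * (m + 4), hr⟩
  have hf : ∀ x : ℤ√(-(m : ℤ)), f x = x.re + x.im * (-2 * (m + 4)) := fun x => rfl
  have c1 : Nat.Coprime 2 m := (Nat.coprime_two_left).mpr (by rw [Nat.odd_iff]; omega)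
  have c2 : Nat.Coprime 4 m := by
    have := Nat.Coprime.pow_left 2 c1
    simpa using this
  have c3 : Nat.Coprime (m + 4) m := by
    rw [Nat.coprime_self_add_left]; exact c2
  have c4 : Nat.Coprime (4 * (m + 4)) N := by
    rw [hN, Nat.coprime_mul_left_add_right]
    exact Nat.Coprime.mul_left c2 c3
  have hu : IsUnit (4 * (m + 4) : ZMod N) := by
    have := (ZMod.isUnit_iff_coprime (4 * (m + 4)) N).mpr c4
    simpa using this
  have e3 : f (z2 m) = 0 := by rw [hf]; simp [z2]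
  have e4 : f (star (z2 m)) = 4 * (m + 4) := by rw [hf]; simp [z2]; ring
  have := congrArg f h
  simp only [map_pow, e3, e4, zero_pow hb] at this
  have hU := hu.pow b
  rw [← this] at hU
  exact not_isUnit_zero hU

noncomputable def r1 (m : ℕ) : ℂ := io m (z1 m) / io m (star (z1 m))
noncomputable def r2 (m : ℕ) : ℂ := io m (z2 m) / io m (star (z2 m))
noncomputable def ph (m : ℕ) (p : ℤ × ℤ) : ℂ := r1 m ^ p.1 * r2 m ^ p.2

lemma G_ph {m : ℕ} (hm : 0 < m) (p : ℤ × ℤ) : G m (ph m p) :=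
  G_mul (G_zpow (G_quot hm (z1_ne m)) _) (G_zpow (G_quot hm (z2_ne m)) _)

lemma ph_add {m : ℕ} (hm : 0 < m) (p q : ℤ × ℤ) : ph m (p + q) = ph m p * ph m q := by
  have h1 : r1 m ≠ 0 := G_ne (G_quot hm (z1_ne m))
  have h2 : r2 m ≠ 0 := G_ne (G_quot hm (z2_ne m))
  simp only [ph, Prod.fst_add, Prod.snd_add, zpow_add₀ h1, zpow_add₀ h2]; ring

lemma ind_aux (m : ℕ) (h3 : m % 4 = 3) (a : ℕ) (j : ℤ) (h : ph m (a, j) = 1) : a = 0 := by
  have hm : 0 < m := by omega
  have a1 := io_ne hm (z1_ne m)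
  have a2 := io_ne hm (z2_ne m)
  have b1 : io m (star (z1 m)) ≠ 0 := io_ne hm (by simpa using z1_ne m)
  have b2 : io m (star (z2 m)) ≠ 0 := io_ne hm (by simpa using z2_ne m)
  obtain ⟨b, rfl | rfl⟩ := Int.eq_nat_or_neg j
  · apply ind_nat m h3 a b 0
    apply io_inj m hm
    simp only [ph, r1, r2, zpow_natCast, div_pow] at h
    simp only [map_mul, map_pow, pow_zero, mul_one]
    field_simp at h
    linear_combination h
  · apply ind_nat m h3 a 0 b
    apply io_inj m hm
    simp only [ph, r1, r2, zpow_natCast, zpow_neg, div_pow] at h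
    simp only [map_mul, map_pow, pow_zero, mul_one]
    field_simp at h
    linear_combination h

lemma ind (m : ℕ) (h3 : m % 4 = 3) (p : ℤ × ℤ) (h : ph m p = 1) : p = 0 := by
  have hm : 0 < m := by omega
  have hneg : ∀ q : ℤ × ℤ, ph m q = 1 → ph m (-q) = 1 := by
    intro q hq
    have := ph_add hm q (-q)
    rw [hq, add_neg_cancel, one_mul] at this
    rw [← this]; simp [ph]
  obtain ⟨i, j⟩ := p
  have hi : i = 0 := by
    obtain ⟨a, rfl | rfl⟩ := Int.eq_nat_or_neg i
    · have := ind_aux m h3 a j h; simp [this]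
    · have := ind_aux m h3 a (-j) (by simpa using hneg _ h); simp [this]
  subst hi
  have key : ∀ b : ℕ, ph m (0, b) = 1 → b = 0 := by
    intro b hb
    have b2 : io m (star (z2 m)) ≠ 0 := io_ne hm (by simpa using z2_ne m)
    apply ind_nat2 m h3 b
    apply io_inj m hm
    simp only [ph, r2, zpow_natCast, div_pow, zpow_zero, one_mul] at hb
    simp only [map_pow]
    field_simp at hb
    linear_combination hb
  obtain ⟨b, rfl | rfl⟩ := Int.eq_nat_or_neg j
  · have := key b h; simp [this]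
  · have := key b (by simpa using hneg _ h); simp [this]

lemma ph_inj (m : ℕ) (h3 : m % 4 = 3) (p q : ℤ × ℤ) (x y : ℂ) (hx : x = 1 ∨ x = -1)
    (hy : y = 1 ∨ y = -1) (h : x * ph m p = y * ph m q) : p = q := by
  have hm : 0 < m := by omega
  have hx2 : x * x = 1 := by rcases hx with h | h <;> simp [h]
  have hy2 : y * y = 1 := by rcases hy with h | h <;> simp [h]
  have e1 : ph m p = ph m (p - q) * ph m q := by rw [← ph_add hm]; simp
  have hq : ph m q ≠ 0 := G_ne (G_ph hm q)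
  have e2 : x * ph m (p - q) = y := by
    apply mul_right_cancel₀ hq
    rw [← h, e1]; ring
  have e3 : ph m ((p - q) + (p - q)) = 1 := by
    rw [ph_add hm]
    linear_combination (x * ph m (p - q) + y) * e2 + hy2 - (ph m (p - q)) ^ 2 * hx2
  have := ind m h3 _ e3
  have e4 := congrArg Prod.fst this
  have e5 := congrArg Prod.snd this
  simp only [Prod.fst_add, Prod.fst_sub, Prod.snd_add, Prod.snd_sub, Prod.fst_zero,
    Prod.snd_zero] at e4 e5
  ext <;> omega

/-- Pigeonhole: a nontrivial signed relation among the `ph (M p)`. -/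
lemma relation (m : ℕ) (hm : 0 < m) (M : ℕ) :
    ∃ C : Finset (ℕ × ℕ), C.Nonempty ∧ ∃ ε : ℕ × ℕ → ℂ, (∀ p, ε p = 1 ∨ ε p = -1) ∧
      ∑ p ∈ C, ε p * ph m (((M * p.1 : ℕ) : ℤ), ((M * p.2 : ℕ) : ℤ)) = 0 := by
  classical
  set Q : ℕ := ((z1 m).norm * (z2 m).norm).natAbs with hQ
  have hn1 : 0 ≤ (z1 m).norm := Zsqrtd.norm_nonneg (by omega) _
  have hn2 : 0 ≤ (z2 m).norm := Zsqrtd.norm_nonneg (by omega) _
  have hQ' : (Q : ℤ) = (z1 m).norm * (z2 m).norm := Int.natAbs_of_nonneg (mul_nonneg hn1 hn2)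
  set c : ℕ := Q ^ M with hc
  set L : ℕ := 2 * c + 9 with hL
  set D : ℕ := Q ^ (M * L) with hD
  let w : ℕ × ℕ → ℤ√(-(m : ℤ)) := fun p =>
    z1 m ^ (M * p.1) * star (z1 m) ^ (M * L - M * p.1) *
      (z2 m ^ (M * p.2) * star (z2 m) ^ (M * L - M * p.2))
  set J : Finset (ℕ × ℕ) := range L ×ˢ range L with hJ
  have hle : ∀ p ∈ J, M * p.1 ≤ M * L ∧ M * p.2 ≤ M * L := by
    intro p hp
    obtain ⟨p1, p2⟩ := mem_product.mp hp
    exact ⟨Nat.mul_le_mul_left _ (mem_range.mp p1).le, Nat.mul_le_mul_left _ (mem_range.mp p2).le⟩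
  have npow : ∀ (x : ℤ√(-(m : ℤ))) (k : ℕ), (x ^ k).norm = x.norm ^ k := by
    intro x k
    induction k with
    | zero => simp
    | succ k ih => rw [pow_succ, Zsqrtd.norm_mul, ih, pow_succ]
  have hw : ∀ p ∈ J, (w p).norm = D := by
    intro p hp
    obtain ⟨p1, p2⟩ := hle p hp
    simp only [w, Zsqrtd.norm_mul, npow, Zsqrtd.norm_conj]
    rw [← pow_add, ← pow_add, Nat.add_sub_cancel' p1, Nat.add_sub_cancel' p2, ← mul_pow, ← hQ', hD]
    push_cast; rfl
  have hb : ∀ p ∈ J, |(w p).re| ≤ D ∧ |(w p).im| ≤ D := by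
    intro p hp
    have h1 := hw p hp
    rw [Zsqrtd.norm_def] at h1
    have hm' : (1 : ℤ) ≤ m := by exact_mod_cast hm
    have a1 := Int.le_self_sq (|(w p).re|)
    have a2 := Int.le_self_sq (|(w p).im|)
    rw [sq_abs] at a1 a2
    constructor <;> nlinarith [sq_nonneg (w p).re, sq_nonneg (w p).im]
  let f : Finset (ℕ × ℕ) → ℤ × ℤ := fun A => (∑ p ∈ A, (w p).re, ∑ p ∈ A, (w p).im)
  set B : ℕ := L * L * D with hB
  have hJc : J.card = L * L := by simp [hJ]
  have hmaps : ∀ A ∈ J.powerset, f A ∈ Icc (-(B : ℤ)) B ×ˢ Icc (-(B : ℤ)) B := by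
    intro A hA
    have hA' := mem_powerset.mp hA
    have hcard : (A.card : ℤ) ≤ L * L := by
      have := card_le_card hA'
      rw [hJc] at this; exact_mod_cast this
    have key : ∀ g : ℕ × ℕ → ℤ, (∀ p ∈ J, |g p| ≤ D) → ∑ p ∈ A, g p ∈ Icc (-(B : ℤ)) B := by
      intro g hg
      rw [mem_Icc, ← abs_le]
      calc |∑ p ∈ A, g p| ≤ ∑ p ∈ A, |g p| := abs_sum_le_sum_abs _ _
        _ ≤ A.card • (D : ℤ) := sum_le_card_nsmul _ _ _ (fun p hp => hg p (hA' hp))
        _ = A.card * D := by simp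
        _ ≤ (L * L) * D := mul_le_mul_of_nonneg_right hcard (by positivity)
        _ = B := by rw [hB]; push_cast; ring
    exact mem_product.mpr ⟨key _ (fun p hp => (hb p hp).1), key _ (fun p hp => (hb p hp).2)⟩
  have hcard : (Icc (-(B : ℤ)) B ×ˢ Icc (-(B : ℤ)) B).card < J.powerset.card := by
    have e1 : (Icc (-(B : ℤ)) B).card = 2 * B + 1 := by
      rw [Int.card_Icc]; omega
    rw [card_product, e1, card_powerset, hJc]
    have d1 : D ≤ 2 ^ (c * L) := by
      rw [hD, pow_mul, pow_mul]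
      exact Nat.pow_le_pow_left (Nat.lt_two_pow_self).le _
    have d2 : L ≤ 2 ^ L := (Nat.lt_two_pow_self).le
    have d3 : B ≤ 2 ^ L * 2 ^ L * 2 ^ (c * L) := Nat.mul_le_mul (Nat.mul_le_mul d2 d2) d1
    have d4 : 1 ≤ 2 ^ L * 2 ^ L * 2 ^ (c * L) := Nat.one_le_iff_ne_zero.mpr (by positivity)
    have d5 : 2 * B + 1 ≤ 2 ^ (2 + L + L + c * L) := by
      rw [pow_add, pow_add, pow_add]
      have : 2 ^ 2 * 2 ^ L * 2 ^ L * 2 ^ (c * L) = 4 * (2 ^ L * 2 ^ L * 2 ^ (c * L)) := by ring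
      omega
    calc (2 * B + 1) * (2 * B + 1) ≤ 2 ^ (2 + L + L + c * L) * 2 ^ (2 + L + L + c * L) :=
          Nat.mul_le_mul d5 d5
      _ = 2 ^ (2 + L + L + c * L + (2 + L + L + c * L)) := by rw [← pow_add]
      _ < 2 ^ (L * L) := by
          apply Nat.pow_lt_pow_right (by norm_num)
          have : L * L = 2 * (c * L) + 9 * L := by
            conv_lhs => rw [show L * L = (2 * c + 9) * L by rw [← hL]]
            ring
          omega
  obtain ⟨A, hA, A', hA', hne, heq⟩ := exists_ne_map_eq_of_card_lt_of_maps_to hcard hmaps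
  have hA1 := mem_powerset.mp hA
  have hA2 := mem_powerset.mp hA'
  have b1 : io m (star (z1 m)) ≠ 0 := io_ne hm (by simpa using z1_ne m)
  have b2 : io m (star (z2 m)) ≠ 0 := io_ne hm (by simpa using z2_ne m)
  set K : ℂ := io m (star (z1 m)) ^ (M * L) * io m (star (z2 m)) ^ (M * L) with hK
  have hK0 : K ≠ 0 := mul_ne_zero (pow_ne_zero _ b1) (pow_ne_zero _ b2)
  let g : ℕ × ℕ → ℂ := fun p => ph m (((M * p.1 : ℕ) : ℤ), ((M * p.2 : ℕ) : ℤ))
  have hio : ∀ p ∈ J, K * g p = (w p).re + (w p).im * sq m := by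
    intro p hp
    obtain ⟨p1, p2⟩ := hle p hp
    rw [← io_apply]
    obtain ⟨u, hu⟩ := Nat.exists_eq_add_of_le p1
    obtain ⟨v, hv⟩ := Nat.exists_eq_add_of_le p2
    have hu' : M * L - M * p.1 = u := by omega
    have hv' : M * L - M * p.2 = v := by omega
    have k1 : io m (star (z1 m)) ^ (M * L)
        = io m (star (z1 m)) ^ (M * p.1) * io m (star (z1 m)) ^ u := by rw [← pow_add, ← hu]
    have k2 : io m (star (z2 m)) ^ (M * L)
        = io m (star (z2 m)) ^ (M * p.2) * io m (star (z2 m)) ^ v := by rw [← pow_add, ← hv]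
    simp only [w, g, ph, r1, r2, zpow_natCast, div_pow, map_mul, map_pow, hu', hv', hK, k1, k2]
    field_simp
  have hs : ∀ X : Finset (ℕ × ℕ), X ⊆ J →
      K * ∑ p ∈ X, g p = ((f X).1 : ℂ) + ((f X).2 : ℂ) * sq m := by
    intro X hX
    rw [mul_sum, sum_congr rfl (fun p hp => hio p (hX hp)), sum_add_distrib, ← sum_mul]
    simp only [f]; push_cast; rfl
  have hgs : ∑ p ∈ A, g p = ∑ p ∈ A', g p := by
    apply mul_left_cancel₀ hK0
    rw [hs A hA1, hs A' hA2, heq]
  refine ⟨(A \ A') ∪ (A' \ A), ?_, fun p => if p ∈ A then 1 else -1, ?_, ?_⟩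
  · rw [nonempty_iff_ne_empty]
    intro h
    rw [union_eq_empty, sdiff_eq_empty_iff_subset, sdiff_eq_empty_iff_subset] at h
    exact hne (Subset.antisymm h.1 h.2)
  · intro p; by_cases h : p ∈ A <;> simp [h]
  · rw [sum_union disjoint_sdiff_sdiff]
    have t1 : ∑ p ∈ A \ A', (if p ∈ A then (1 : ℂ) else -1) * g p = ∑ p ∈ A \ A', g p :=
      sum_congr rfl (fun p hp => by rw [if_pos (mem_sdiff.mp hp).1, one_mul])
    have t2 : ∑ p ∈ A' \ A, (if p ∈ A then (1 : ℂ) else -1) * g p = -∑ p ∈ A' \ A, g p := by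
      rw [← sum_neg_distrib]
      exact sum_congr rfl (fun p hp => by rw [if_neg (mem_sdiff.mp hp).2]; ring)
    have t3 := sum_sdiff_sub_sum_sdiff (s₁ := A') (s₂ := A) (f := g)
    simp only [g] at t1 t2 t3 hgs
    rw [t1, t2]
    linear_combination t3 + hgs

def Rel (m n : ℕ) : Prop :=
  ∃ S : Finset ℂ, S.card = n ∧ (∀ u ∈ S, G m u) ∧ ∑ u ∈ S, u = 0

lemma bad_finite (m : ℕ) (h3 : m % 4 = 3) (F : Finset ℂ) (u : ℂ) (hu : u ≠ 0) :
    {p : ℤ × ℤ | u * ph m p ∈ F ∨ -(u * ph m p) ∈ F}.Finite := by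
  have h1 : {p : ℤ × ℤ | u * ph m p ∈ F}.Finite := by
    apply Set.Finite.preimage (f := fun p => u * ph m p) _ F.finite_toSet
    intro p _ q _ h
    exact ph_inj m h3 p q 1 1 (Or.inl rfl) (Or.inl rfl)
      (by rw [one_mul, one_mul]; exact mul_left_cancel₀ hu h)
  have h2 : {p : ℤ × ℤ | -(u * ph m p) ∈ F}.Finite := by
    apply Set.Finite.preimage (f := fun p => -(u * ph m p)) _ F.finite_toSet
    intro p _ q _ h
    exact ph_inj m h3 p q 1 1 (Or.inl rfl) (Or.inl rfl)
      (by rw [one_mul, one_mul]; exact mul_left_cancel₀ hu (neg_injective h))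
  exact h1.union h2

lemma replace (m : ℕ) (h3 : m % 4 = 3) (hno : ∀ n, n % 2 = 1 → ¬ Rel m n) (F : Finset ℂ)
    (u : ℂ) (hu : G m u) :
    ∃ T : Finset ℂ, T.card % 2 = 1 ∧ (∀ t ∈ T, G m t) ∧ Disjoint F T ∧ ∑ t ∈ T, t = u := by
  classical
  have hm : 0 < m := by omega
  have hfin := (bad_finite m h3 F u (G_ne hu)).image (fun p : ℤ × ℤ => p.1.natAbs + p.2.natAbs)
  obtain ⟨M0, hM0⟩ := hfin.bddAbove
  set M := M0 + 1 with hM
  obtain ⟨C, ⟨p0, hp0⟩, ε, hε, hsum⟩ := relation m hm M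
  let c : ℕ × ℕ → ℤ × ℤ := fun p => (((M * p.1 : ℕ) : ℤ), ((M * p.2 : ℕ) : ℤ))
  let g : ℕ × ℕ → ℂ := fun p => ε p * ph m (c p)
  have hGε : ∀ p, G m (ε p) := by
    intro p
    rcases hε p with h | h <;> rw [h]
    · exact G_one m
    · exact G_neg (G_one m)
  have hg : ∀ p, G m (g p) := fun p => G_mul (hGε p) (G_ph hm _)
  have hginj : Function.Injective g := by
    intro p q h
    have := ph_inj m h3 _ _ _ _ (hε p) (hε q) h
    have e1 := congrArg Prod.fst this
    have e2 := congrArg Prod.snd this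
    simp only [c, Nat.cast_inj] at e1 e2
    have hMp : 0 < M := by omega
    exact Prod.ext (Nat.eq_of_mul_eq_mul_left hMp e1) (Nat.eq_of_mul_eq_mul_left hMp e2)
  have heven : C.card % 2 = 0 := by
    by_contra h
    apply hno C.card (by omega)
    refine ⟨C.image g, card_image_of_injective _ hginj, ?_, ?_⟩
    · intro v hv
      obtain ⟨p, -, rfl⟩ := mem_image.mp hv
      exact hg p
    · rw [sum_image (fun a _ b _ h => hginj h)]; exact hsum
  have hg0 : g p0 ≠ 0 := G_ne (hg p0)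
  let k : ℂ := -(u * (g p0)⁻¹)
  have hk : G m k := G_neg (G_mul hu (G_inv (hg p0)))
  have hkinj : Function.Injective (fun p => k * g p) :=
    fun p q h => hginj (mul_left_cancel₀ (G_ne hk) h)
  refine ⟨(C.erase p0).image (fun p => k * g p), ?_, ?_, ?_, ?_⟩
  · rw [card_image_of_injective _ hkinj, card_erase_of_mem hp0]
    have := card_pos.mpr ⟨p0, hp0⟩
    omega
  · intro v hv
    obtain ⟨p, -, rfl⟩ := mem_image.mp hv
    exact G_mul hk (hg p)
  · rw [disjoint_right]
    intro v hv hF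
    obtain ⟨p, hp, rfl⟩ := mem_image.mp hv
    have hpne : p ≠ p0 := (mem_erase.mp hp).1
    have e1 : ph m (c p) = ph m (c p - c p0) * ph m (c p0) := by rw [← ph_add hm]; simp
    have hq : ph m (c p0) ≠ 0 := G_ne (G_ph hm _)
    have hbad : u * ph m (c p - c p0) ∈ F ∨ -(u * ph m (c p - c p0)) ∈ F := by
      simp only [k, g, e1] at hF
      rcases hε p with h | h <;> rcases hε p0 with h' | h' <;> rw [h, h'] at hF
      · right; convert hF using 1; field_simp
      · left; convert hF using 1; field_simp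
      · left; convert hF using 1; field_simp
      · right; convert hF using 1; field_simp
    have hle := hM0 (Set.mem_image_of_mem _ (show c p - c p0 ∈ _ from hbad))
    simp only [c, Prod.fst_sub, Prod.snd_sub] at hle
    push_cast at hle
    rw [← mul_sub, ← mul_sub, Int.natAbs_mul, Int.natAbs_mul, Int.natAbs_natCast, ← mul_add] at hle
    have : 1 ≤ ((p.1 : ℤ) - p0.1).natAbs + ((p.2 : ℤ) - p0.2).natAbs := by
      by_contra h
      apply hpne
      ext <;> omega
    have := Nat.mul_le_mul_left M this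
    omega
  · rw [sum_image (fun a _ b _ h => hkinj h), ← mul_sum]
    have := add_sum_erase C g hp0
    have h2 : ∑ p ∈ C, g p = 0 := hsum
    have h3 : ∑ p ∈ C.erase p0, g p = -g p0 := by linear_combination this + h2
    rw [h3]; simp only [k]; field_simp

def Rep (m : ℕ) (v : ℂ) (b : ℕ) : Prop :=
  ∃ T : Finset ℂ, T.card % 2 = b % 2 ∧ (∀ t ∈ T, G m t) ∧ ∑ t ∈ T, t = v

lemma rep_step (m : ℕ) (h3 : m % 4 = 3) (hno : ∀ n, n % 2 = 1 → ¬ Rel m n) (v : ℂ) (b : ℕ)
    (h : Rep m v b) (u : ℂ) (hu : G m u) (k : ℕ) : Rep m (v + k * u) (b + k) := by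
  classical
  induction k with
  | zero => simpa using h
  | succ k ih =>
    obtain ⟨T, t1, t2, t3⟩ := ih
    obtain ⟨T', s1, s2, s3, s4⟩ := replace m h3 hno T u hu
    refine ⟨T ∪ T', ?_, ?_, ?_⟩
    · rw [card_union_of_disjoint s3]; omega
    · intro t ht
      rcases mem_union.mp ht with h | h
      · exact t2 t h
      · exact s2 t h
    · rw [sum_union s3, t3, s4]; push_cast; ring

lemma odd_rel (m : ℕ) (h3 : m % 4 = 3) : ∃ n, n % 2 = 1 ∧ Rel m n := by
  by_contra hcon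
  have hno : ∀ n, n % 2 = 1 → ¬ Rel m n := fun n h1 h2 => hcon ⟨n, h1, h2⟩
  have hm : 0 < m := by omega
  obtain ⟨r, hr⟩ : ∃ r, m = 4 * r + 3 := ⟨m / 4, by omega⟩
  let a : ℤ√(-(m : ℤ)) := ⟨1, 1⟩
  have ha : a ≠ 0 := by
    intro h; have := congrArg Zsqrtd.im h; simp [a] at this
  have ha' : star a ≠ 0 := by simpa using ha
  have g1 := G_quot hm ha
  have g2 := G_quot hm ha'
  rw [star_star] at g2
  have h0 : Rep m 0 0 := ⟨∅, by simp, by simp, by simp⟩
  have h1 := rep_step m h3 hno _ _ h0 _ g1 (r + 1)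
  have h2 := rep_step m h3 hno _ _ h1 _ g2 (r + 1)
  obtain ⟨T, t1, t2, t3⟩ := rep_step m h3 hno _ _ h2 _ (G_one m) (2 * r + 1)
  refine hno T.card (by omega) ⟨T, rfl, t2, ?_⟩
  rw [t3]
  have n1 := io_ne hm ha
  have n2 := io_ne hm ha'
  have e1 : io m a = 1 + sq m := by rw [io_apply]; simp [a]
  have e2 : io m (star a) = 1 - sq m := by rw [io_apply]; simp [a]; ring
  have e3 := sq_sq m
  rw [e1] at n1 ⊢
  rw [e2] at n2 ⊢
  have e4 : (m : ℂ) = 4 * r + 3 := by rw [hr]; push_cast; ring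
  push_cast at e3 ⊢
  rw [e4] at e3
  field_simp
  linear_combination e3

lemma rel_step (m : ℕ) (h3 : m % 4 = 3) (n : ℕ) (h : Rel m n) : Rel m (n + 2) := by
  classical
  have hm : 0 < m := by omega
  obtain ⟨S, s1, s2, s3⟩ := h
  obtain ⟨p, hp⟩ := (bad_finite m h3 S 1 one_ne_zero).exists_notMem
  simp only [Set.mem_ofPred_eq, one_mul, not_or] at hp
  have hG := G_ph hm p
  have hne : ph m p ≠ -ph m p := by
    intro h
    apply G_ne hG
    linear_combination (1 / 2 : ℂ) * h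
  have hni : ph m p ∉ insert (-ph m p) S := by
    rw [mem_insert, not_or]; exact ⟨hne, hp.1⟩
  refine ⟨insert (ph m p) (insert (-ph m p) S), ?_, ?_, ?_⟩
  · rw [card_insert_of_notMem hni, card_insert_of_notMem hp.2, s1]
  · intro u hu
    rcases mem_insert.mp hu with rfl | hu
    · exact hG
    rcases mem_insert.mp hu with rfl | hu
    · exact G_neg hG
    · exact s2 u hu
  · rw [sum_insert hni, sum_insert hp.2, s3]; ring

lemma rel_all (m : ℕ) (h3 : m % 4 = 3) : ∃ N, ∀ n, N ≤ n → Rel m n := by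
  obtain ⟨N, h1, h2⟩ := odd_rel m h3
  have key : ∀ a, Rel m a → ∀ k, Rel m (a + 2 * k) := by
    intro a ha k
    induction k with
    | zero => simpa using ha
    | succ k ih => exact rel_step m h3 _ ih
  refine ⟨N, fun n hn => ?_⟩
  rcases Nat.mod_two_eq_zero_or_one n with h | h
  · have := key 0 ⟨∅, by simp, by simp, by simp⟩ (n / 2)
    rwa [show 0 + 2 * (n / 2) = n by omega] at this
  · have := key N h2 ((n - N) / 2)
    rwa [show N + 2 * ((n - N) / 2) = n by omega] at this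

lemma common_den (m : ℕ) (S : Finset ℂ) (h : ∀ u ∈ S, G m u) :
    ∃ D : ℕ, 0 < D ∧ ∀ u ∈ S, ∃ a : ℤ√(-(m : ℤ)), (D : ℂ) * u = io m a := by
  classical
  induction S using Finset.induction_on with
  | empty => exact ⟨1, one_pos, by simp⟩
  | insert v S hv ih =>
    obtain ⟨D, hD, hS⟩ := ih (fun u hu => h u (mem_insert_of_mem hu))
    obtain ⟨-, E, hE, b, hb⟩ := h v (mem_insert_self _ _)
    refine ⟨D * E, Nat.mul_pos hD hE, fun u hu => ?_⟩
    rcases mem_insert.mp hu with rfl | hu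
    · exact ⟨D * b, by rw [map_mul, map_natCast, ← hb]; push_cast; ring⟩
    · obtain ⟨a, ha⟩ := hS u hu
      exact ⟨E * a, by rw [map_mul, map_natCast, ← ha]; push_cast; ring⟩

/-- The point `(x, y)` of the plane lies in the lattice generated by `(1,0)`, `(0,√m)`. -/
def InLattice (m : ℕ) (x y : ℝ) : Prop := ∃ a b : ℤ, x = a ∧ y = b * Real.sqrt m

/-- `(x i, y i)`, `i` taken modulo `n`, are the vertices in counterclockwise order of a
strictly convex equilateral `n`-gon: all sides have one length `l > 0`, and for every side all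
the other `n - 2` vertices lie strictly to the left of the directed line of that side. -/
def IsConvexEquilateral (n : ℕ) (x y : ℕ → ℝ) : Prop :=
  3 ≤ n ∧ (∀ i, x (i + n) = x i ∧ y (i + n) = y i) ∧
  (∃ l : ℝ, 0 < l ∧ ∀ i, Real.sqrt ((x (i + 1) - x i) ^ 2 + (y (i + 1) - y i) ^ 2) = l) ∧
  ∀ i j, 2 ≤ j → j < n →
    0 < (x (i + 1) - x i) * (y (i + j) - y i) - (y (i + 1) - y i) * (x (i + j) - x i)

theorem result (m : ℕ) (_hsf : Squarefree m) (h3 : m % 4 = 3) :
    ∃ N : ℕ, ∀ n : ℕ, N ≤ n → ∃ x y : ℕ → ℝ,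
      IsConvexEquilateral n x y ∧ ∀ i, InLattice m (x i) (y i) := by
  obtain ⟨N, hN⟩ := rel_all m h3
  refine ⟨N + 3, fun n hn => ?_⟩
  obtain ⟨S, s1, s2, s3⟩ := hN n (by omega)
  obtain ⟨D, hD, hS⟩ := common_den m S s2
  obtain ⟨e, e1, e2, e3⟩ := sort_poly S n (by omega) s1 (fun u hu => (s2 u hu).1) s3
  have hD' : (0 : ℝ) < D := by exact_mod_cast hD
  let P : ℕ → ℂ := fun k => ∑ t ∈ range k, e t
  have hP : ∀ i j, P (i + j) = P i + ∑ t ∈ range j, e (i + t) := fun i j => sum_range_add _ _ _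
  refine ⟨fun k => D * (P k).re, fun k => D * (P k).im, ⟨by omega, ?_, ⟨D, hD', ?_⟩, ?_⟩, ?_⟩
  · intro i
    simp only [P, e2 i, and_self]
  · intro i
    have h1 : (e i).re ^ 2 + (e i).im ^ 2 = 1 := by
      have := (s2 _ (e1 i)).1
      have h2 := Complex.sq_norm (e i)
      rw [this, normSq_apply] at h2
      linarith
    simp only [hP i 1, sum_range_one, add_zero, add_re, add_im]
    rw [Real.sqrt_eq_iff_mul_self_eq (by positivity) hD'.le]
    linear_combination ((D : ℝ) ^ 2) * h1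
  · intro i j h2 hj
    have := e3 i j h2 hj
    simp only [hP i 1, hP i j, sum_range_one, add_zero, add_re, add_im]
    simp only [mul_im, conj_re, conj_im] at this
    have h4 := mul_pos (mul_pos hD' hD') this
    linarith
  · intro i
    have : ∃ a : ℤ√(-(m : ℤ)), (D : ℂ) * P i = io m a := by
      induction i with
      | zero => exact ⟨0, by simp [P]⟩
      | succ i ih =>
        obtain ⟨a, ha⟩ := ih
        obtain ⟨b, hb⟩ := hS _ (e1 i)
        refine ⟨a + b, ?_⟩
        rw [map_add, ← ha, ← hb, hP i 1]; simp; ring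
    obtain ⟨a, ha⟩ := this
    rw [io_apply] at ha
    have h1 := congrArg Complex.re ha
    have h2 := congrArg Complex.im ha
    simp [sq] at h1 h2
    exact ⟨a.re, a.im, h1, h2⟩

end Pool.Agent.Results.MP_349919_co.Full
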